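import Pool.Agent.TH43.LK.Main
import Pool.Agent.H95R2.Leh.Congr

set_option autoImplicit false

namespace Pool.Agent.Results.MP_b50d59_nt.LargePrimeFactor

open Finset Pool.Agent.H95R2.Leh Pool.Agent.TH43.LK

open Classical in
/-- For every `ε > 0` there is `C` such that for all `x` and `y ≥ 1` with `x ≤ y ^ 4` the number of
composite `n` with `4 < n ≤ x`, `φ(n) ∣ n - a(n)` and a prime factor `> y` is at most
`C x^ε min ((x / y)^(2/3), x / y^(3/2))`. -/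
theorem result (ε : ℝ) (hε : 0 < ε) : ∃ C : ℝ, 0 < C ∧ ∀ x y : ℕ, 1 ≤ y → x ≤ y ^ 4 →
    (((Icc 1 x).filter (fun n : ℕ => 4 < n ∧ ¬ n.Prime ∧ n.totient ∣ (n - Nca8c8b9b.a n) ∧
      ∃ p : ℕ, p.Prime ∧ p ∣ n ∧ y < p)).card : ℝ) ≤
      C * (x : ℝ) ^ ε * min (((x : ℝ) / y) ^ (2 / 3 : ℝ)) ((x : ℝ) / (y : ℝ) ^ (3 / 2 : ℝ)) := by
  obtain ⟨C1, hC1, h1⟩ := main_one ε hε
  obtain ⟨C2, hC2, h2⟩ := main_two ε hε
  refine ⟨max C1 C2, lt_max_of_lt_left hC1, fun x y hy hxy => ?_⟩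
  have hsub : (Icc 1 x).filter (fun n : ℕ => 4 < n ∧ ¬ n.Prime ∧
      n.totient ∣ (n - Nca8c8b9b.a n) ∧ ∃ p : ℕ, p.Prime ∧ p ∣ n ∧ y < p) ⊆ AA x y := by
    intro n hn
    unfold AA
    rw [mem_filter] at hn ⊢
    obtain ⟨h1, h4, hc, hd, h5⟩ := hn
    exact ⟨h1, leh_of_congr h4 hc hd, h5⟩
  have h3 : (((Icc 1 x).filter (fun n : ℕ => 4 < n ∧ ¬ n.Prime ∧
      n.totient ∣ (n - Nca8c8b9b.a n) ∧ ∃ p : ℕ, p.Prime ∧ p ∣ n ∧ y < p)).card : ℝ) ≤
      ((AA x y).card : ℝ) := by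
    exact_mod_cast card_le_card hsub
  refine h3.trans ?_
  rw [mul_min_of_nonneg _ _ (by positivity)]
  refine le_min ?_ ?_
  · refine (h1 x y hy hxy).trans ?_
    apply mul_le_mul_of_nonneg_right _ (by positivity)
    exact mul_le_mul_of_nonneg_right (le_max_left _ _) (by positivity)
  · refine (h2 x y hy).trans ?_
    apply mul_le_mul_of_nonneg_right _ (by positivity)
    exact mul_le_mul_of_nonneg_right (le_max_right _ _) (by positivity)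

end Pool.Agent.Results.MP_b50d59_nt.LargePrimeFactor
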