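import Pool.Agent.TH43.LR.Main
import Pool.Agent.H95R2.Leh.Congr

set_option autoImplicit false

namespace Pool.Agent.Results.MP_b50d59_nt.LargestPrimeExponent

open Finset Pool.Agent.H95R2.Leh Pool.Agent.TH43.LR

open Classical in
/-- For every `ε > 0` there are `δ > 0` and `C` such that for every `x` at most `C x^(1/2 - δ)`
composite `n` with `4 < n ≤ x` and `φ(n) ∣ n - a(n)` have largest prime factor `p ≥ x^ε` such
that for every `t ≥ 2` one has `p^(2t+1) ≤ x^(1-ε)` or `p^(2t+1) ≥ x^(1+ε)` or at most `t + 1`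
prime factors of `n` are larger than `p x^(-ε)`. -/
theorem result (ε : ℝ) (hε : 0 < ε) : ∃ δ C : ℝ, 0 < δ ∧ 0 < C ∧ ∀ x : ℕ,
    (((Icc 1 x).filter (fun n : ℕ => 4 < n ∧ ¬ n.Prime ∧ n.totient ∣ (n - Nca8c8b9b.a n) ∧
      ∃ p : ℕ, p.Prime ∧ p ∣ n ∧ (∀ r : ℕ, r.Prime → r ∣ n → r ≤ p) ∧ (x : ℝ) ^ ε ≤ (p : ℝ) ∧
        ∀ t : ℕ, 2 ≤ t → (p : ℝ) ^ (2 * t + 1) ≤ (x : ℝ) ^ (1 - ε) ∨
          (x : ℝ) ^ (1 + ε) ≤ (p : ℝ) ^ (2 * t + 1) ∨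
          (n.primeFactors.filter (fun r : ℕ => (p : ℝ) * (x : ℝ) ^ (-ε) < (r : ℝ))).card
            ≤ t + 1)).card : ℝ) ≤ C * (x : ℝ) ^ (1 / 2 - δ) := by
  obtain ⟨δ, C, hδ, hC, h⟩ := main_r ε hε
  refine ⟨δ, C, hδ, hC, fun x => ?_⟩
  refine le_trans ?_ (h x)
  apply Nat.cast_le.2
  apply card_le_card
  intro n hn
  unfold RR
  rw [mem_filter] at hn ⊢
  obtain ⟨h1, h4, hc, hd, h5⟩ := hn
  exact ⟨h1, leh_of_congr h4 hc hd, h5⟩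

end Pool.Agent.Results.MP_b50d59_nt.LargestPrimeExponent
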