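import Pool.Agent.TH836.Leh.Final2
import Pool.Agent.H95R2.Leh.Congr

set_option autoImplicit false

namespace Pool.Agent.Results.MP_b50d59_nt.LehmerSqrtLogLogSquared

open Pool.Agent.H95R2.Leh

/-- There is a constant `C` such that for every `x ≥ 2` the number of composite `n` with `4 < n ≤ x`
and `φ(n) ∣ n - a(n)` is at most `C √x exp (-(log log x)² / 48)`. -/
theorem result : ∃ C : ℝ, 0 < C ∧ ∀ x : ℕ, 2 ≤ x →
    (((Finset.Icc 1 x).filter (fun n : ℕ =>
      4 < n ∧ ¬ n.Prime ∧ n.totient ∣ (n - Nca8c8b9b.a n))).card : ℝ) ≤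
      C * Real.sqrt x * Real.exp (-(Real.log (Real.log x)) ^ 2 / 48) := by
  classical
  obtain ⟨C, hC, h⟩ := Pool.Agent.TH836.Leh.lehmer_count2
  refine ⟨C, hC, ?_⟩
  intro x hx
  have h1 := h x hx
  have h2 : C * Real.sqrt x * Real.exp (-(Real.log (Real.log x)) ^ 2 / 48) =
      C * (Real.sqrt x * Real.exp (-((Real.log (Real.log x)) ^ 2 / 48))) := by
    rw [mul_assoc, neg_div]
  rw [h2]
  refine le_trans ?_ h1
  have hsub : (Finset.Icc 1 x).filter (fun n : ℕ =>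
      4 < n ∧ ¬ n.Prime ∧ n.totient ∣ (n - Nca8c8b9b.a n)) ⊆ (Finset.Icc 1 x).filter Leh := by
    intro n hn
    rw [Finset.mem_filter] at hn ⊢
    exact ⟨hn.1, leh_of_congr hn.2.1 hn.2.2.1 hn.2.2.2⟩
  exact_mod_cast Finset.card_le_card hsub

end Pool.Agent.Results.MP_b50d59_nt.LehmerSqrtLogLogSquared
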