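import Pool.Agent.TH55.LP.Leh
import Pool.Agent.H95R2.Leh.Congr

set_option autoImplicit false

namespace Pool.Agent.Results.MP_b50d59_nt.PrimePowersInPredecessor

/-- Let `n > 4` be composite with `φ(n) ∣ n - a(n)`, where `a(n)` is the largest exponent in the prime
factorisation of `n`.  If `n - 1 = q ^ e * m` with `q` prime, then
`log n ≤ 26 min (ω(n), 5 log m) log m`. -/
theorem result (n : ℕ) (h4 : 4 < n) (hc : ¬ n.Prime) (h : n.totient ∣ (n - Nca8c8b9b.a n))
    (q e m : ℕ) (hq : q.Prime) (hm : n - 1 = q ^ e * m) :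
    Real.log n ≤ 26 * min (n.primeFactors.card : ℝ) (5 * Real.log m) * Real.log m := by
  obtain ⟨h1, h2⟩ := Pool.Agent.TH55.LP.main' (Pool.Agent.H95R2.Leh.leh_of_congr h4 hc h) hq hm
  rcases min_choice (n.primeFactors.card : ℝ) (5 * Real.log m) with h3 | h3
  · rw [h3]; exact h1
  · rw [h3]; nlinarith [sq_nonneg (Real.log m)]

end Pool.Agent.Results.MP_b50d59_nt.PrimePowersInPredecessor
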